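import Mathlib

set_option autoImplicit false

namespace Pool.Agent.Results.MP_1d57ab_an.InfiniteSets

open Set Filter Topology
open scoped ENNReal

/-- The visit set `{n : T^n x ∈ V}`. -/
def visits {X : Type*} (T : X → X) (x : X) (V : Set X) : Set ℕ := {n | T^[n] x ∈ V}

/-- Furstenberg families: families of non-empty sets of natural numbers that are hereditary
upwards. -/
def IsFurstenbergFamily (F : Set (Set ℕ)) : Prop :=
  (∀ A ∈ F, A.Nonempty) ∧ ∀ A ∈ F, ∀ B : Set ℕ, A ⊆ B → B ∈ F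

/-- `F`-hypercyclicity. -/
def FHypercyclic {X : Type*} [TopologicalSpace X] (F : Set (Set ℕ)) (T : X → X) : Prop :=
  ∃ x : X, ∀ V : Set X, IsOpen V → V.Nonempty → visits T x V ∈ F

/-- Hereditary `F`-hypercyclicity. -/
def HereditarilyFHypercyclic {X : Type*} [TopologicalSpace X] (F : Set (Set ℕ)) (T : X → X) :
    Prop :=
  ∀ (I : Type) [Countable I] (V : I → Set X) (A : I → Set ℕ),
    (∀ i, IsOpen (V i) ∧ (V i).Nonempty) → (∀ i, A i ∈ F) →
      ∃ x : X, ∀ i, visits T x (V i) ∩ A i ∈ F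

/-! ### The weights -/

/-- `β n = 2 ^ (n - ⌊√n⌋²)`. -/
noncomputable def beta (n : ℕ) : ℝ := 2 ^ (n - n.sqrt ^ 2)

lemma beta_pos (n : ℕ) : 0 < beta n := by
  unfold beta
  positivity

lemma beta_sq (k : ℕ) : beta (k ^ 2) = 1 := by
  unfold beta
  rw [Nat.sqrt_eq']
  simp

lemma beta_succ_le (n : ℕ) : beta (n + 1) ≤ 2 * beta n := by
  unfold beta
  rw [← pow_succ']
  apply pow_le_pow_right₀ (by norm_num)
  have h1 : n.sqrt ≤ (n + 1).sqrt := Nat.sqrt_le_sqrt (Nat.le_succ n)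
  have h2 : n.sqrt ^ 2 ≤ (n + 1).sqrt ^ 2 := Nat.pow_le_pow_left h1 2
  omega

/-- `n` is good if `β` is at least `2 ^ L` on `[n, n + J)`. -/
def Good (J L n : ℕ) : Prop := J ≤ n ∧ ∀ i < J, L ≤ (n + i) - (n + i).sqrt ^ 2

lemma good_or_good (J L a n : ℕ) (ha : J + L ≤ a) (hn : J + L + (a + J + L) ^ 2 ≤ n) :
    Good J L n ∨ Good J L (n + a) := by
  by_contra hcon
  rw [not_or] at hcon
  obtain ⟨h1, h2⟩ := hcon
  have hJn : J ≤ n := by
    have : 0 ≤ (a + J + L) ^ 2 := Nat.zero_le _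
    omega
  simp only [Good, not_and, not_forall, not_le] at h1 h2
  obtain ⟨i, hi, h1⟩ := h1 hJn
  obtain ⟨j, hj, h2⟩ := h2 (by omega)
  set s := (n + i).sqrt with hs
  set t := (n + a + j).sqrt with ht
  have hs1 : s ^ 2 ≤ n + i := Nat.sqrt_le' _
  have ht1 : t ^ 2 ≤ n + a + j := Nat.sqrt_le' _
  have h3 : n + i < s ^ 2 + L := by omega
  have h4 : n + a + j < t ^ 2 + L := by omega
  have h5 : s ^ 2 < t ^ 2 := by omega
  have h6 : s < t := lt_of_pow_lt_pow_left₀ 2 (Nat.zero_le _) h5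
  have h7 : (s + 1) ^ 2 ≤ t ^ 2 := Nat.pow_le_pow_left h6 2
  have h8 : (s + 1) ^ 2 = s ^ 2 + 2 * s + 1 := by ring
  have h9 : 2 * s + 1 < a + J + L := by omega
  have h10 : (a + J + L) ^ 2 ≤ s ^ 2 := by omega
  have h11 : a + J + L ≤ s := (Nat.pow_le_pow_iff_left (by norm_num)).mp h10
  omega

/-! ### The space and the operator -/

section operator

variable (𝕜 : Type) [RCLike 𝕜]

/-- `ℓ¹` over `𝕜`. -/
abbrev E : Type := lp (fun _ : ℕ => 𝕜) 1

lemma summable_norm (x : E 𝕜) : Summable fun n => ‖x n‖ := by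
  have := (memℓp_gen_iff (p := 1) (by simp)).mp (lp.memℓp x)
  simpa using this

lemma norm_eq_tsum (x : E 𝕜) : ‖x‖ = ∑' n, ‖x n‖ := by
  have := lp.norm_eq_tsum_rpow (p := 1) (by simp) x
  simpa using this

lemma weight_le (n : ℕ) (c : 𝕜) :
    ‖((beta (n + 1) / beta n : ℝ) : 𝕜) * c‖ ≤ 2 * ‖c‖ := by
  rw [norm_mul, RCLike.norm_ofReal, abs_of_pos (div_pos (beta_pos _) (beta_pos _))]
  apply mul_le_mul_of_nonneg_right _ (norm_nonneg _)
  rw [div_le_iff₀ (beta_pos _)]
  exact beta_succ_le n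

/-- The weighted backward shift with weights `w (n+1) = β (n+1) / β n`, as a linear map. -/
noncomputable def shiftₗ : E 𝕜 →ₗ[𝕜] E 𝕜 where
  toFun x := ⟨fun n => ((beta (n + 1) / beta n : ℝ) : 𝕜) * x (n + 1), by
    apply memℓp_gen
    have h : Summable fun n => 2 * ‖x (n + 1)‖ :=
      ((summable_nat_add_iff 1).mpr (summable_norm 𝕜 x)).mul_left 2
    refine (Summable.of_nonneg_of_le (fun n => by positivity) (fun n => ?_) h)
    simp only [ENNReal.toReal_one, Real.rpow_one]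
    exact weight_le 𝕜 n _⟩
  map_add' x y := by
    ext n
    simp only [lp.coeFn_add, Pi.add_apply, mul_add]
  map_smul' c x := by
    ext n
    simp only [lp.coeFn_smul, Pi.smul_apply, smul_eq_mul, RingHom.id_apply]
    ring

lemma shiftₗ_apply (x : E 𝕜) (n : ℕ) :
    shiftₗ 𝕜 x n = ((beta (n + 1) / beta n : ℝ) : 𝕜) * x (n + 1) := rfl

/-- The weighted backward shift with weights `w (n+1) = β (n+1) / β n`. -/
noncomputable def shift : E 𝕜 →L[𝕜] E 𝕜 :=
  (shiftₗ 𝕜).mkContinuous 2 (by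
      intro x
      have h1 := summable_norm 𝕜 x
      have h2 : Summable fun n => ‖x (n + 1)‖ := (summable_nat_add_iff 1).mpr h1
      rw [norm_eq_tsum, norm_eq_tsum, h1.tsum_eq_zero_add, mul_add, ← tsum_mul_left]
      have h3 : ∑' n, ‖shiftₗ 𝕜 x n‖ ≤ ∑' n, 2 * ‖x (n + 1)‖ :=
        (summable_norm 𝕜 (shiftₗ 𝕜 x)).tsum_le_tsum (fun n => weight_le 𝕜 n _) (h2.mul_left 2)
      have h4 : 0 ≤ ‖x 0‖ := norm_nonneg _
      linarith)

lemma shift_apply (x : E 𝕜) (n : ℕ) :
    shift 𝕜 x n = ((beta (n + 1) / beta n : ℝ) : 𝕜) * x (n + 1) := rfl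

lemma shift_iterate (N : ℕ) (x : E 𝕜) (n : ℕ) :
    ((shift 𝕜)^[N] x) n = ((beta (n + N) / beta n : ℝ) : 𝕜) * x (n + N) := by
  induction N generalizing n with
  | zero => simp [div_self (beta_pos n).ne']
  | succ N ih =>
    rw [Function.iterate_succ_apply', shift_apply, ih, ← mul_assoc, ← RCLike.ofReal_mul]
    have h1 := (beta_pos (n + 1)).ne'
    have h2 := (beta_pos n).ne'
    have h3 : beta (n + 1) / beta n * (beta (n + 1 + N) / beta (n + 1))
        = beta (n + (N + 1)) / beta n := by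
      rw [show n + 1 + N = n + (N + 1) by ring]
      field_simp
    rw [h3, show n + 1 + N = n + (N + 1) by ring]

/-- Truncations of an element of an open set are eventually in the set. -/
lemma exists_trunc (U : Set (E 𝕜)) (hU : IsOpen U) (u : E 𝕜) (hu : u ∈ U) :
    ∃ J₀ : ℕ, ∀ J ≥ J₀, ∑ i ∈ Finset.range J, lp.single 1 i (u i) ∈ U := by
  have h1 := (lp.hasSum_single (p := 1) (by simp) u).tendsto_sum_nat
  exact Filter.eventually_atTop.mp (h1 (hU.mem_nhds hu))

lemma trunc_apply (u : ℕ → 𝕜) (J n : ℕ) :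
    (∑ i ∈ Finset.range J, lp.single (E := fun _ : ℕ => 𝕜) 1 i (u i) : E 𝕜) n
      = if n < J then u n else 0 := by
  rw [lp.coeFn_sum, Finset.sum_apply]
  simp only [lp.coeFn_single, Finset.sum_pi_single, Finset.mem_range]

/-- The key property of the weighted shift. -/
lemma shift_good (U V : Set (E 𝕜)) (hU : IsOpen U) (hV : IsOpen V) (hUn : U.Nonempty)
    (hVn : V.Nonempty) : ∃ J L : ℕ, ∀ n, Good J L n → ∃ x ∈ U, (shift 𝕜)^[n] x ∈ V := by
  obtain ⟨u, hu⟩ := hUn
  obtain ⟨v, hv⟩ := hVn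
  obtain ⟨J₁, h1⟩ := exists_trunc 𝕜 U hU u hu
  obtain ⟨J₂, h2⟩ := exists_trunc 𝕜 V hV v hv
  set J := max J₁ J₂ with hJ
  set u' : E 𝕜 := ∑ i ∈ Finset.range J, lp.single 1 i (u i) with hu'
  set v' : E 𝕜 := ∑ i ∈ Finset.range J, lp.single 1 i (v i) with hv'
  have hu'U : u' ∈ U := h1 J (le_max_left _ _)
  have hv'V : v' ∈ V := h2 J (le_max_right _ _)
  obtain ⟨δ, hδ, hball⟩ := Metric.isOpen_iff.mp hU u' hu'U
  set M : ℝ := ∑ i ∈ Finset.range J, beta i * ‖v i‖ with hM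
  have hM0 : 0 ≤ M := Finset.sum_nonneg fun i _ => mul_nonneg (beta_pos i).le (norm_nonneg _)
  obtain ⟨L, hL⟩ : ∃ L : ℕ, M / δ < 2 ^ L := by
    obtain ⟨L, hL⟩ := pow_unbounded_of_one_lt (M / δ) (by norm_num : (1 : ℝ) < 2)
    exact ⟨L, hL⟩
  refine ⟨J, L, fun n hn => ?_⟩
  obtain ⟨hn1, hn2⟩ := hn
  set y : E 𝕜 := ∑ i ∈ Finset.range J,
    lp.single 1 (n + i) (((beta i / beta (n + i) : ℝ) : 𝕜) * v i) with hy
  refine ⟨u' + y, hball ?_, ?_⟩
  · rw [mem_ball_iff_norm, add_sub_cancel_left]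
    have h3 : ‖y‖ ≤ ∑ i ∈ Finset.range J, beta i * ‖v i‖ / 2 ^ L := by
      refine norm_sum_le_of_le _ fun i hi => ?_
      rw [lp.norm_single (by simp), norm_mul, RCLike.norm_ofReal,
        abs_of_pos (div_pos (beta_pos _) (beta_pos _)), div_mul_eq_mul_div]
      apply div_le_div_of_nonneg_left (mul_nonneg (beta_pos i).le (norm_nonneg _)) (by positivity)
      exact pow_le_pow_right₀ (by norm_num) (hn2 i (Finset.mem_range.mp hi))
    rw [← Finset.sum_div, ← hM] at h3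
    refine lt_of_le_of_lt h3 ?_
    rw [div_lt_iff₀ (by positivity)]
    rw [div_lt_iff₀ hδ] at hL
    linarith
  · have h4 : (shift 𝕜)^[n] (u' + y) = v' := by
      ext m
      rw [shift_iterate, lp.coeFn_add, Pi.add_apply, hu', trunc_apply, if_neg (by omega), zero_add,
        hv', trunc_apply, hy, lp.coeFn_sum, Finset.sum_apply]
      simp only [lp.coeFn_single]
      by_cases hm : m < J
      · rw [if_pos hm, Finset.sum_eq_single m]
        · rw [add_comm m n, Pi.single_eq_same, ← mul_assoc, ← RCLike.ofReal_mul]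
          have e1 := (beta_pos m).ne'
          have e2 := (beta_pos (n + m)).ne'
          have e3 : beta (n + m) / beta m * (beta m / beta (n + m)) = 1 := by
            field_simp
          rw [e3, RCLike.ofReal_one, one_mul]
        · intro i _ hi
          exact Pi.single_eq_of_ne (by omega) _
        · intro h
          exact absurd (Finset.mem_range.mpr hm) h
      · rw [if_neg hm, Finset.sum_eq_zero, mul_zero]
        intro i hi
        rw [Finset.mem_range] at hi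
        exact Pi.single_eq_of_ne (by omega) _
    rw [h4]
    exact hv'V

instance : SecondCountableTopology (E 𝕜) := by
  have h1 : TopologicalSpace.IsSeparable
      (Submodule.span 𝕜 (range fun i : ℕ => (lp.single 1 i (1 : 𝕜) : E 𝕜)) : Set (E 𝕜)) :=
    (countable_range _).isSeparable.span
  have h2 : closure (Submodule.span 𝕜 (range fun i : ℕ => (lp.single 1 i (1 : 𝕜) : E 𝕜)) :
      Set (E 𝕜)) = univ := by
    rw [eq_univ_iff_forall]
    intro x
    refine mem_closure_of_tendsto (lp.hasSum_single (p := 1) (by simp) x).tendsto_sum_nat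
      (Filter.Eventually.of_forall fun n => ?_)
    refine Submodule.sum_mem _ fun i _ => ?_
    have h3 : (lp.single 1 i (x i) : E 𝕜) = x i • (lp.single 1 i (1 : 𝕜) : E 𝕜) := by
      rw [← lp.single_smul, smul_eq_mul, mul_one]
    rw [h3]
    exact Submodule.smul_mem _ _ (Submodule.subset_span (mem_range_self i))
  have h4 : TopologicalSpace.SeparableSpace (E 𝕜) := by
    rw [← TopologicalSpace.isSeparable_univ_iff, ← h2]
    exact h1.closure
  exact UniformSpace.secondCountable_of_separable _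

lemma not_finite_E : ¬ Module.Finite 𝕜 (E 𝕜) := by
  intro h
  have h1 : LinearIndependent 𝕜 (fun i : ℕ => (lp.single 1 i (1 : 𝕜) : E 𝕜)) := by
    rw [linearIndependent_iff']
    intro s g hg i hi
    have h2 := congrArg (fun x : E 𝕜 => x i) hg
    simp only [lp.coeFn_sum, Finset.sum_apply, lp.coeFn_smul, Pi.smul_apply, lp.coeFn_single,
      lp.coeFn_zero, Pi.zero_apply] at h2
    rw [Finset.sum_eq_single i] at h2
    · simpa using h2
    · intro j _ hj
      rw [Pi.single_eq_of_ne hj.symm, smul_zero]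
    · intro h
      exact absurd hi h
  have := h1.finite
  exact _root_.not_finite ℕ

end operator

/-! ### The Baire category argument -/

theorem core {Y X : Type*} [TopologicalSpace Y] [PolishSpace Y] [TopologicalSpace X]
    [PolishSpace X] (S : Y → Y) (T : X → X) (hS : Continuous S) (hT : Continuous T)
    (hgood : ∀ U V : Set X, IsOpen U → IsOpen V → U.Nonempty → V.Nonempty →
      ∃ J L : ℕ, ∀ n, Good J L n → ∃ x ∈ U, T^[n] x ∈ V)
    (hSh : FHypercyclic {A : Set ℕ | A.Infinite} S) [Nonempty X] :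
    FHypercyclic {A : Set ℕ | A.Infinite} (Prod.map S T) := by
  obtain ⟨y, hy⟩ := hSh
  -- transitivity
  have htrans : ∀ (G O : Set (Y × X)), IsOpen G → IsOpen O → G.Nonempty → O.Nonempty → ∀ N : ℕ,
      ∃ n ≥ N, ∃ z ∈ G, (Prod.map S T)^[n] z ∈ O := by
    intro G O hG hO hGn hOn N
    obtain ⟨⟨g1, g2⟩, hg⟩ := hGn
    obtain ⟨⟨o1, o2⟩, ho⟩ := hOn
    obtain ⟨U', U, hU', hU, hg1, hg2, hUG⟩ := isOpen_prod_iff.mp hG g1 g2 hg
    obtain ⟨V', V, hV', hV, ho1, ho2, hVO⟩ := isOpen_prod_iff.mp hO o1 o2 ho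
    obtain ⟨J, L, hJL⟩ := hgood U V hU hV ⟨g2, hg2⟩ ⟨o2, ho2⟩
    obtain ⟨m₀, hm₀⟩ := (hy U' hU' ⟨g1, hg1⟩).nonempty
    have hm₀' : S^[m₀] y ∈ U' := hm₀
    have hV'inf : (visits S y V').Infinite := hy V' hV' ⟨o1, ho1⟩
    obtain ⟨p, hp⟩ := hV'inf.nonempty
    obtain ⟨p', hp', hpp'⟩ := hV'inf.exists_gt (p + J + L)
    obtain ⟨a, rfl⟩ : ∃ a, p' = a + p := ⟨p' - p, by omega⟩
    have ha : J + L ≤ a := by omega
    have hVa : IsOpen (V' ∩ (S^[a]) ⁻¹' V') := hV'.inter (hV'.preimage (hS.iterate a))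
    have hVan : (V' ∩ (S^[a]) ⁻¹' V').Nonempty := by
      refine ⟨S^[p] y, hp, ?_⟩
      have : S^[a + p] y ∈ V' := hp'
      rw [Function.iterate_add_apply] at this
      exact this
    obtain ⟨q, hq, hqbig⟩ := (hy _ hVa hVan).exists_gt (m₀ + N + J + L + (a + J + L) ^ 2)
    obtain ⟨n, rfl⟩ : ∃ n, q = n + m₀ := ⟨q - m₀, by omega⟩
    have hq1 : S^[n] (S^[m₀] y) ∈ V' := by
      rw [← Function.iterate_add_apply]
      exact hq.1
    have hq2 : S^[n + a] (S^[m₀] y) ∈ V' := by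
      rw [← Function.iterate_add_apply, show n + a + m₀ = a + (n + m₀) by ring,
        Function.iterate_add_apply]
      exact hq.2
    have hiter : ∀ (k : ℕ) (z : Y × X), (Prod.map S T)^[k] z = (S^[k] z.1, T^[k] z.2) := by
      intro k z
      rw [Prod.map_iterate]
      rfl
    rcases good_or_good J L a n ha (by omega) with h | h
    · obtain ⟨x, hx, hx'⟩ := hJL n h
      refine ⟨n, by omega, (S^[m₀] y, x), hUG ⟨hm₀', hx⟩, ?_⟩
      rw [hiter]
      exact hVO ⟨hq1, hx'⟩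
    · obtain ⟨x, hx, hx'⟩ := hJL (n + a) h
      refine ⟨n + a, by omega, (S^[m₀] y, x), hUG ⟨hm₀', hx⟩, ?_⟩
      rw [hiter]
      exact hVO ⟨hq2, hx'⟩
  -- Baire
  obtain ⟨b, hbc, -, hb⟩ := TopologicalSpace.exists_countable_basis (Y × X)
  have hR : Continuous (Prod.map S T) := hS.prodMap hT
  let W : {O // O ∈ b ∧ O.Nonempty} × ℕ → Set (Y × X) := fun i =>
    ⋃ n ≥ i.2, ((Prod.map S T)^[n]) ⁻¹' i.1.1
  have hcount : Countable {O // O ∈ b ∧ O.Nonempty} :=
    (hbc.mono (fun O hO => hO.1) : {O | O ∈ b ∧ O.Nonempty}.Countable).to_subtype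
  have hWo : ∀ i, IsOpen (W i) := fun i =>
    isOpen_iUnion fun n => isOpen_iUnion fun _ => (hb.isOpen i.1.2.1).preimage (hR.iterate n)
  have hWd : ∀ i, Dense (W i) := by
    intro i
    rw [dense_iff_inter_open]
    intro G hG hGn
    obtain ⟨n, hn, z, hz, hz'⟩ := htrans G i.1.1 hG (hb.isOpen i.1.2.1) hGn i.1.2.2 i.2
    exact ⟨z, hz, mem_iUnion₂.mpr ⟨n, hn, hz'⟩⟩
  have hd := dense_iInter_of_isOpen hWo hWd
  have : Nonempty (Y × X) := ⟨(y, Classical.arbitrary X)⟩
  obtain ⟨z, hz⟩ := hd.nonempty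
  refine ⟨z, fun V hV hVn => ?_⟩
  obtain ⟨v, hv⟩ := hVn
  obtain ⟨O, hO, hvO, hOV⟩ := hb.exists_subset_of_mem_open hv hV
  change (visits (Prod.map S T) z V).Infinite
  rw [Set.infinite_iff_exists_gt]
  intro N
  have h1 := mem_iInter.mp hz (⟨O, hO, ⟨v, hvO⟩⟩, N + 1)
  obtain ⟨n, hn, hn'⟩ := mem_iUnion₂.mp h1
  exact ⟨n, hOV hn', hn⟩

/-- Negative answer to Q1 with `F` the family of all infinite sets. -/
theorem result.{u} (𝕜 : Type) [RCLike 𝕜] :
    IsFurstenbergFamily {A : Set ℕ | A.Infinite} ∧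
    ∃ (X : Type) (_ : AddCommGroup X) (_ : Module 𝕜 X) (_ : TopologicalSpace X)
      (_ : IsTopologicalAddGroup X) (_ : ContinuousSMul 𝕜 X) (_ : PolishSpace X)
      (T : X →L[𝕜] X),
      ¬ Module.Finite 𝕜 X ∧
      FHypercyclic {A : Set ℕ | A.Infinite} T ∧
      (∀ (Y : Type u) [AddCommGroup Y] [Module 𝕜 Y] [TopologicalSpace Y]
        [IsTopologicalAddGroup Y] [ContinuousSMul 𝕜 Y] [PolishSpace Y] (S : Y →L[𝕜] Y),
        ¬ Module.Finite 𝕜 Y →
        FHypercyclic {A : Set ℕ | A.Infinite} S →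
        FHypercyclic {A : Set ℕ | A.Infinite} (S.prodMap T)) ∧
      ¬ HereditarilyFHypercyclic {A : Set ℕ | A.Infinite} T := by
  refine ⟨⟨fun A hA => hA.nonempty, fun A hA B hAB => hA.mono hAB⟩, E 𝕜, inferInstance,
    inferInstance, inferInstance, inferInstance, inferInstance, inferInstance, shift 𝕜,
    not_finite_E 𝕜, ?_, ?_, ?_⟩
  · have h1 : FHypercyclic {A : Set ℕ | A.Infinite} (id : Unit → Unit) := by
      refine ⟨(), fun V _ hV => ?_⟩
      obtain ⟨v, hv⟩ := hV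
      have : visits (id : Unit → Unit) () V = univ := by
        ext n
        simpa [visits] using hv
      rw [this]
      exact Set.infinite_univ
    obtain ⟨z, hz⟩ := core (id : Unit → Unit) (shift 𝕜) continuous_id (shift 𝕜).continuous
      (shift_good 𝕜) h1
    refine ⟨z.2, fun V hV hVn => ?_⟩
    have h2 := hz (Prod.snd ⁻¹' V) (hV.preimage continuous_snd) (by
      obtain ⟨v, hv⟩ := hVn
      exact ⟨((), v), hv⟩)
    refine Set.Infinite.mono ?_ h2
    intro n hn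
    have h3 : ((Prod.map id (shift 𝕜))^[n] z).2 ∈ V := hn
    rw [Prod.map_iterate] at h3
    exact h3
  · intro Y _ _ _ _ _ _ S _ hS
    exact core S (shift 𝕜) S.continuous (shift 𝕜).continuous (shift_good 𝕜) hS
  · intro hH
    have hopen : IsOpen {y : E 𝕜 | 1 < ‖y 0‖} := by
      have hc : Continuous fun y : E 𝕜 => ‖y 0‖ :=
        (lp.evalCLM 𝕜 (fun _ : ℕ => 𝕜) 1 0).continuous.norm
      exact isOpen_lt continuous_const hc
    have hne : {y : E 𝕜 | 1 < ‖y 0‖}.Nonempty := by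
      refine ⟨lp.single 1 0 (2 : 𝕜), ?_⟩
      change 1 < ‖(lp.single 1 0 (2 : 𝕜) : E 𝕜) 0‖
      rw [lp.single_apply_self, RCLike.norm_ofNat]
      norm_num
    have hinf : (range fun k : ℕ => k ^ 2).Infinite :=
      Set.infinite_range_of_injective (Nat.pow_left_injective (by norm_num))
    obtain ⟨x, hx⟩ := hH Unit (fun _ => {y : E 𝕜 | 1 < ‖y 0‖}) (fun _ => range fun k : ℕ => k ^ 2)
      (fun _ => ⟨hopen, hne⟩) (fun _ => hinf)
    apply hx ()
    have h2 : Tendsto (fun n => ‖x n‖) atTop (𝓝 0) :=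
      (summable_norm 𝕜 x).tendsto_atTop_zero
    have h3 : ∀ᶠ n in atTop, ‖x n‖ < 1 := h2.eventually (gt_mem_nhds one_pos)
    obtain ⟨N, hN⟩ := eventually_atTop.mp h3
    refine (Set.finite_lt_nat N).subset ?_
    rintro n ⟨hn1, k, rfl⟩
    by_contra hcon
    have h4 := hN (k ^ 2) (by simpa using hcon)
    have h5 : 1 < ‖((shift 𝕜)^[k ^ 2] x) 0‖ := hn1
    rw [shift_iterate, zero_add, beta_sq] at h5
    have h6 : beta 0 = 1 := by
      have := beta_sq 0
      simpa using this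
    rw [h6] at h5
    simp at h5
    exact absurd h4 (not_lt.mpr h5.le)

end Pool.Agent.Results.MP_1d57ab_an.InfiniteSets
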